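import Pool.Agent.Lib.MP_28303a_al.NT.A.Iface

/-! # Devissage -/

set_option autoImplicit false

namespace Pool.Agent.NegK.NT.H92

universe u

open CategoryTheory Limits Pretriangulated

section

variable (k : Type u) [Ring k] {Γ : Type u} [Group Γ] {B : Type u} [MulAction Γ B] (P : Pre Γ B)

/-- The homology functor in degree `0`. -/
noncomputable abbrev F0 : HomotopyCategory (Fn k P) (ComplexShape.up ℤ) ⥤ Fn k P :=
  HomotopyCategory.homologyFunctor (Fn k P) (ComplexShape.up ℤ) 0

/-- The functor `ev` on the homotopy categories. -/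
noncomputable abbrev evK : KK k P ⥤ HomotopyCategory (Fn k P) (ComplexShape.up ℤ) :=
  (Loc.ev (k := k) (P := P)).mapHomotopyCategory (ComplexShape.up ℤ)

/-- The long exact homology sequence of a distinguished triangle. -/
theorem les (T : Triangle (KK k P)) (hT : T ∈ distTriang (KK k P)) (n₀ n₁ : ℤ)
    (h : n₀ + 1 = n₁) :
    ∃ δ : (hq k P n₀).obj T.obj₃ ⟶ (hq k P n₁).obj T.obj₁,
      (∃ w, (ShortComplex.mk ((hq k P n₀).map T.mor₁) ((hq k P n₀).map T.mor₂) w).Exact) ∧
      (∃ w, (ShortComplex.mk ((hq k P n₀).map T.mor₂) δ w).Exact) ∧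
      (∃ w, (ShortComplex.mk δ ((hq k P n₁).map T.mor₁) w).Exact) := by
  have hT' := (evK k P).map_distinguished T hT
  exact ⟨(F0 k P).homologySequenceδ ((evK k P).mapTriangle.obj T) n₀ n₁ h,
    ⟨_, (F0 k P).homologySequence_exact₂ _ hT' n₀⟩,
    ⟨_, (F0 k P).homologySequence_exact₃ _ hT' n₀ n₁ h⟩,
    ⟨_, (F0 k P).homologySequence_exact₁ _ hT' n₀ n₁ h⟩⟩

end

theorem dev (hBdd : BddStatement.{u}) (hCons : ConsStatement.{u}) (hHaa : HaaStatement.{u})
    (hResn : ResnStatement.{u}) (hTop : TopStatement.{u}) (hPer : PerStatement.{u}) :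
    DevStatement.{u} := by
  intro k _ Γ _ B _ P AA hAA Φ hΦ0 hΦt
  have key : ∀ (N : ℕ) (b : ℤ) (X : KK k P), Per X → (∀ n, b < n → IsZero ((hq k P n).obj X)) →
      (∀ n, n ≤ b - N → IsZero ((hq k P n).obj X)) →
      (∀ (n : ℤ) (R : KK k P), Per R → Nonempty ((hq k P n).obj R ≅ (hq k P n).obj X) →
        (∀ m, m ≠ n → IsZero ((hq k P m).obj R)) → Φ R) → Φ X := by
    intro N
    induction N with
    | zero =>
      intro b X hX h1 h2 _
      refine hΦ0 X (hCons k Γ B P X hX fun n => ?_)
      rcases lt_or_ge b n with h | h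
      · exact h1 n h
      · exact h2 n (by simpa using h)
    | succ N ih =>
      intro b X hX h1 h2 h3
      obtain ⟨R, hR, ⟨e⟩, hR0⟩ := hResn k Γ B P AA hAA b _ (hHaa k Γ B P AA hAA X hX b)
      obtain ⟨f, hf⟩ := hTop k Γ B P X R b hX hR h1 hR0 e.inv
      obtain ⟨C, g, δ', hT⟩ := distinguished_cocone_triangle₁ f
      have hC : Per C := (hPer k Γ B P).2 _ (inv_rot_of_distTriang _ hT)
        ((hPer k Γ B P).1 R (-1) hR) hX
      have hiso : IsIso ((hq k P b).map f) := by rw [hf]; infer_instance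
      -- the homology of `C` above `b`
      have hC1 : ∀ n, b ≤ n → IsZero ((hq k P n).obj C) := by
        intro n hn
        obtain ⟨δ, ⟨w1, ex1⟩, ⟨w2, ex2⟩, ⟨w3, ex3⟩⟩ := les k P _ hT (n - 1) n (by ring)
        refine ex3.isZero_X₂ ?_ ?_
        · rcases eq_or_ne (n - 1) b with h | h
          · subst h
            have : Epi ((hq k P (n - 1)).map f) := inferInstance
            exact (ex2.epi_f_iff).1 this
          · exact (hR0 _ h).eq_of_src _ _
        · rcases eq_or_lt_of_le hn with h | h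
          · subst h
            have h5 : g ≫ f = 0 := comp_distTriang_mor_zero₁₂ _ hT
            have h4 : (hq k P b).map g ≫ (hq k P b).map f = 0 := by
              rw [← Functor.map_comp, h5, Functor.map_zero]
            exact (cancel_mono ((hq k P b).map f)).1 (h4.trans zero_comp.symm)
          · exact (h1 n h).eq_of_tgt _ _
      -- the homology of `C` below `b`
      have hC2 : ∀ n, n < b → Nonempty ((hq k P n).obj C ≅ (hq k P n).obj X) := by
        intro n hn
        obtain ⟨δ, ⟨w1, ex1⟩, ⟨w2, ex2⟩, ⟨w3, ex3⟩⟩ := les k P _ hT (n - 1) n (by ring)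
        obtain ⟨δ', ⟨w1', ex1'⟩, -⟩ := les k P _ hT n (n + 1) rfl
        have hm : Mono ((hq k P n).map g) :=
          (ex3.mono_g_iff).2 ((hR0 (n - 1) (by omega)).eq_of_src _ _)
        have he : Epi ((hq k P n).map g) :=
          (ex1'.epi_f_iff).2 ((hR0 n (by omega)).eq_of_tgt _ _)
        have : IsIso ((hq k P n).map g) := isIso_of_mono_of_epi _
        exact ⟨asIso ((hq k P n).map g)⟩
      have hΦC : Φ C := by
        refine ih (b - 1) C hC (fun n hn => hC1 n (by omega)) (fun n hn => ?_)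
          fun n R' hR' hn hR'0 => ?_
        · obtain ⟨e'⟩ := hC2 n (by omega)
          exact (h2 n (by push_cast; omega)).of_iso e'
        · obtain ⟨e'⟩ := hn
          rcases lt_or_ge n b with h | h
          · obtain ⟨e''⟩ := hC2 n h
            exact h3 n R' hR' ⟨e' ≪≫ e''⟩ hR'0
          · refine hΦ0 R' (hCons k Γ B P R' hR' fun m => ?_)
            rcases eq_or_ne m n with rfl | h4
            · exact (hC1 m h).of_iso e'
            · exact hR'0 m h4
      exact hΦt _ hT hΦC (h3 b R hR ⟨e⟩ hR0)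
  intro X hX hΦ
  obtain ⟨a, b, hab⟩ := hBdd k Γ B P X hX
  refine key (b - a + 1).toNat b X hX (fun n hn => hab n (Or.inr hn)) (fun n hn => ?_) hΦ
  refine hab n ?_
  rcases lt_or_ge n a with h | h
  · exact Or.inl h
  · right
    by_contra hc
    have : ((b - a + 1).toNat : ℤ) = b - a + 1 := Int.toNat_of_nonneg (by omega)
    omega

end Pool.Agent.NegK.NT.H92
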